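import Pool.Agent.Lib.MP_efea25_an.Quant

set_option autoImplicit false

namespace Pool.Agent.Lib.MP_efea25_an

open Finset

/-- the sample points -/
noncomputable def tt (m i : ℕ) : ℝ := 1 - (4 * m - i) / (9600 * m ^ 2)

lemma tt_bounds {m i : ℕ} (hm : 1 ≤ m) (hi : i ≤ 2 * m) :
    1 / (4800 * m) ≤ 1 - tt m i ∧ 1 - tt m i ≤ 1 / (2400 * m) := by
  have hm' : (1 : ℝ) ≤ m := by exact_mod_cast hm
  have hi' : (i : ℝ) ≤ 2 * m := by exact_mod_cast hi
  have hi0 : (0 : ℝ) ≤ i := Nat.cast_nonneg i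
  rw [tt, sub_sub_cancel]
  constructor
  · rw [div_le_div_iff₀ (by positivity) (by positivity)]
    nlinarith
  · rw [div_le_div_iff₀ (by positivity) (by positivity)]
    nlinarith

lemma tt_pos {m i : ℕ} (hm : 1 ≤ m) (hi : i ≤ 2 * m) : 0 < tt m i := by
  have hm' : (1 : ℝ) ≤ m := by exact_mod_cast hm
  have h := (tt_bounds hm hi).2
  have h2 : 1 / (2400 * (m : ℝ)) ≤ 1 / 2400 := by
    apply one_div_le_one_div_of_le (by norm_num); linarith
  linarith

lemma tt_lt_one {m i : ℕ} (hm : 1 ≤ m) (hi : i ≤ 2 * m) : tt m i < 1 := by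
  have hm' : (1 : ℝ) ≤ m := by exact_mod_cast hm
  have h := (tt_bounds hm hi).1
  have h2 : 0 < 1 / (4800 * (m : ℝ)) := by positivity
  linarith

lemma tt_sub {m : ℕ} (i j : ℕ) : tt m i - tt m j = ((i : ℝ) - j) / (9600 * m ^ 2) := by
  rw [tt, tt]; ring

lemma tt_lt {m i j : ℕ} (hm : 1 ≤ m) (h : i < j) : tt m i < tt m j := by
  have hm' : (1 : ℝ) ≤ m := by exact_mod_cast hm
  have h' : (i : ℝ) < j := by exact_mod_cast h
  have := tt_sub (m := m) j i
  have h2 : 0 < ((j : ℝ) - i) / (9600 * m ^ 2) := by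
    apply div_pos (by linarith) (by positivity)
  linarith

/-- the quotient factor -/
noncomputable def qq (m j k : ℕ) : ℝ :=
  (tt m (2 * k + 1) - tt m (2 * j)) / (1 - tt m (2 * k + 1) * tt m (2 * j))

lemma one_sub_mul_bounds {m a b : ℕ} (hm : 1 ≤ m) (ha : a ≤ 2 * m) (hb : b ≤ 2 * m) :
    0 < 1 - tt m a * tt m b ∧ 1 - tt m a * tt m b ≤ 8 * m / (9600 * m ^ 2) := by
  have hm' : (1 : ℝ) ≤ m := by exact_mod_cast hm
  have ha0 := tt_pos hm ha
  have hb0 := tt_pos hm hb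
  have ha1 := tt_lt_one hm ha
  have hb1 := tt_lt_one hm hb
  have ha2 := (tt_bounds hm ha).2
  have hb2 := (tt_bounds hm hb).2
  constructor
  · nlinarith
  · have h1 : 1 - tt m a * tt m b ≤ (1 - tt m a) + (1 - tt m b) := by nlinarith
    have h2 : (8 : ℝ) * m / (9600 * m ^ 2) = 1 / (2400 * m) + 1 / (2400 * m) := by
      field_simp; norm_num
    linarith

lemma abs_qq_ge {m j k : ℕ} (hm : 1 ≤ m) (hj : j ≤ m) (hk : k < m) :
    |(2 * k + 1 - 2 * j : ℝ)| / (8 * m) ≤ |qq m j k| := by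
  have hm' : (1 : ℝ) ≤ m := by exact_mod_cast hm
  obtain ⟨h1, h2⟩ := one_sub_mul_bounds (a := 2 * k + 1) (b := 2 * j) hm (by omega) (by omega)
  rw [qq, abs_div, tt_sub, abs_div, abs_of_pos h1]
  push_cast
  rw [abs_of_pos (by positivity : (0 : ℝ) < 9600 * m ^ 2)]
  have h3 : |(2 * k + 1 - 2 * j : ℝ)| / (8 * m)
      = |(2 * k + 1 - 2 * j : ℝ)| / (9600 * m ^ 2) / (8 * m / (9600 * m ^ 2)) := by
    field_simp
  rw [h3]
  gcongr

lemma qq_sign {m j k : ℕ} (hm : 1 ≤ m) (hj : j ≤ m) (hk : k < m) :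
    qq m j k = (if k < j then -1 else 1) * |qq m j k| := by
  obtain ⟨h1, h2⟩ := one_sub_mul_bounds (a := 2 * k + 1) (b := 2 * j) hm (by omega) (by omega)
  split_ifs with h
  · have : tt m (2 * k + 1) < tt m (2 * j) := tt_lt hm (by omega)
    have h3 : qq m j k < 0 := div_neg_of_neg_of_pos (by linarith) h1
    rw [abs_of_neg h3]; ring
  · have : tt m (2 * j) < tt m (2 * k + 1) := tt_lt hm (by omega)
    have h3 : 0 < qq m j k := div_pos (by linarith) h1
    rw [abs_of_pos h3]; ring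

lemma prod_sign (m j : ℕ) (hj : j ≤ m) :
    ∏ k ∈ range m, (if k < j then (-1 : ℝ) else 1) = (-1) ^ j := by
  rw [prod_ite, prod_const, prod_const_one, mul_one]
  congr 1
  have : (range m).filter (fun k => k < j) = range j := by
    ext k; simp; omega
  rw [this, card_range]

lemma prod_odd_ge (m j : ℕ) (hj : j ≤ m) :
    ((j.factorial : ℝ) * (m - j).factorial) ≤ ∏ k ∈ range m, |(2 * k + 1 - 2 * j : ℝ)| := by
  obtain ⟨d, rfl⟩ := Nat.exists_eq_add_of_le hj
  rw [prod_range_add, Nat.add_sub_cancel_left]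
  have h1 : (j.factorial : ℝ) ≤ ∏ k ∈ range j, |(2 * k + 1 - 2 * j : ℝ)| := by
    rw [← prod_range_reflect, ← prod_range_add_one_eq_factorial]
    push_cast
    refine prod_le_prod (fun i _ => by positivity) (fun i hi => ?_)
    rw [mem_range] at hi
    have e : ((j - 1 - i : ℕ) : ℝ) = j - 1 - i := by
      rw [Nat.cast_sub (by omega), Nat.cast_sub (by omega)]; simp
    rw [e, abs_of_nonpos]
    · have : (0 : ℝ) ≤ i := Nat.cast_nonneg i
      linarith
    · have : (0 : ℝ) ≤ i := Nat.cast_nonneg i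
      linarith
  have h2 : (d.factorial : ℝ) ≤ ∏ k ∈ range d, |(2 * ((j + k : ℕ) : ℝ) + 1 - 2 * j : ℝ)| := by
    rw [← prod_range_add_one_eq_factorial]
    push_cast
    refine prod_le_prod (fun i _ => by positivity) (fun i hi => ?_)
    have : (0 : ℝ) ≤ i := Nat.cast_nonneg i
    rw [abs_of_nonneg] <;> linarith
  exact mul_le_mul h1 h2 (by positivity) (prod_nonneg (fun _ _ => abs_nonneg _))

lemma factorial_ge (m j : ℕ) (hj : j ≤ m) :
    ((m : ℝ) / 6) ^ m ≤ (j.factorial : ℝ) * (m - j).factorial := by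
  have h1 : (m.choose j : ℝ) * j.factorial * (m - j).factorial = m.factorial := by
    exact_mod_cast Nat.choose_mul_factorial_mul_factorial hj
  have h2 : (m.choose j : ℝ) ≤ 2 ^ m := by
    exact_mod_cast Nat.choose_le_two_pow m j
  have h3 : ((m : ℝ)) ^ m / m.factorial ≤ Real.exp m :=
    Real.pow_div_factorial_le_exp _ (by positivity) _
  have h4 : Real.exp m ≤ 3 ^ m := by
    rw [← mul_one (m : ℝ), Real.exp_nat_mul]
    gcongr
    linarith [Real.exp_one_lt_d9]
  have h5 : (0 : ℝ) < m.factorial := by positivity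
  have h6 : ((m : ℝ)) ^ m ≤ 3 ^ m * m.factorial := by
    rw [div_le_iff₀ h5] at h3
    refine h3.trans ?_
    gcongr
  have h7 : (m.factorial : ℝ) ≤ 2 ^ m * ((j.factorial : ℝ) * (m - j).factorial) := by
    rw [← h1, mul_assoc]
    gcongr
  rw [div_pow, div_le_iff₀ (by positivity)]
  calc ((m : ℝ)) ^ m ≤ 3 ^ m * m.factorial := h6
    _ ≤ 3 ^ m * (2 ^ m * ((j.factorial : ℝ) * (m - j).factorial)) := by gcongr
    _ = (j.factorial : ℝ) * (m - j).factorial * 6 ^ m := by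
        rw [show (6 : ℝ) = 3 * 2 by norm_num, mul_pow]; ring

lemma prod_qq (m j : ℕ) (hm : 1 ≤ m) (hj : j ≤ m) :
    (1 / 48) ^ m ≤ (-1) ^ j * ∏ k ∈ range m, qq m j k := by
  have hm' : (1 : ℝ) ≤ m := by exact_mod_cast hm
  have h1 : ∏ k ∈ range m, qq m j k = (-1) ^ j * ∏ k ∈ range m, |qq m j k| := by
    rw [← prod_sign m j hj, ← prod_mul_distrib]
    exact prod_congr rfl (fun k hk => qq_sign hm hj (mem_range.1 hk))
  rw [h1, ← mul_assoc, ← pow_add, ← two_mul, pow_mul]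
  norm_num only [neg_one_sq, one_pow, one_mul]
  calc (1 / 48 : ℝ) ^ m = ((m : ℝ) / 6) ^ m / (8 * m) ^ m := by
        rw [← div_pow]; congr 1; field_simp; norm_num
    _ ≤ (∏ k ∈ range m, |(2 * k + 1 - 2 * j : ℝ)|) / (8 * m) ^ m := by
        gcongr
        exact (factorial_ge m j hj).trans (prod_odd_ge m j hj)
    _ = ∏ k ∈ range m, |(2 * k + 1 - 2 * j : ℝ)| / (8 * m) := by
        rw [prod_div_distrib, prod_const, card_range]
    _ ≤ ∏ k ∈ range m, |qq m j k| :=
        prod_le_prod (fun _ _ => by positivity) (fun k hk => abs_qq_ge hm hj (mem_range.1 hk))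

/-- the input sequence -/
noncomputable def gseq (m : ℕ) (k : ℕ) : ℝ :=
  PowerSeries.coeff k (PowerSeries.C (1 / 2 : ℝ) * blProd (range m) (fun k => tt m (2 * k + 1)))

lemma abs_gseq_le (m : ℕ) (hm : 1 ≤ m) (k : ℕ) : |gseq m k| ≤ 1 / 2 := by
  have h := ((L2_blProd (range m) (fun k => tt m (2 * k + 1)) (fun i hi => by
    have hi' : 2 * i + 1 ≤ 2 * m := by rw [mem_range] at hi; omega
    rw [abs_of_pos (tt_pos hm hi')]
    exact (tt_lt_one hm hi').le)).C_mul (1 / 2)).abs_coeff_le k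
  rw [gseq]
  refine h.trans ?_
  norm_num

lemma ev_gseq (m j : ℕ) (hm : 1 ≤ m) (hj : j ≤ m) :
    ev (PowerSeries.mk (gseq m)) (tt m (2 * j)) = 1 / 2 * ∏ k ∈ range m, qq m j k := by
  have h1 : PowerSeries.mk (gseq m)
      = PowerSeries.C (1 / 2 : ℝ) * blProd (range m) (fun k => tt m (2 * k + 1)) := by
    ext k; rw [PowerSeries.coeff_mk, gseq]
  have hj' : 2 * j ≤ 2 * m := by omega
  have hx : |tt m (2 * j)| < 1 := by
    rw [abs_of_pos (tt_pos hm hj')]; exact tt_lt_one hm hj'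
  rw [h1, ev_C_mul, (blProd_ev (range m) (fun k => tt m (2 * k + 1)) (fun i hi => by
    have hi' : 2 * i + 1 ≤ 2 * m := by rw [mem_range] at hi; omega
    rw [abs_of_pos (tt_pos hm hi')]
    exact (tt_lt_one hm hi').le) hx).2]
  rfl

/-- the `±1` sequence -/
noncomputable def bits (m : ℕ) : ℕ → ℝ :=
  aseq (fun j => PowerSeries.coeff j (filt (range (m + 1)) (fun k => tt m (2 * k)))) (gseq m)

lemma bits_eq (m k : ℕ) : bits m k = 1 ∨ bits m k = -1 := aseq_eq _ _ _

lemma ev_bits (m j : ℕ) (hm : 1 ≤ m) (hj : j ≤ m) :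
    ev (PowerSeries.mk (bits m)) (tt m (2 * j)) = 1 / 2 * ∏ k ∈ range m, qq m j k := by
  have hm' : (1 : ℝ) ≤ m := by exact_mod_cast hm
  rw [← ev_gseq m j hm hj]
  refine ev_quant (range (m + 1)) (fun k => tt m (2 * k)) ?_ ?_ ?_ _ (abs_gseq_le m hm)
    (i := j) (by rw [mem_range]; omega)
  · intro i hi
    rw [mem_range] at hi
    exact tt_pos hm (by omega)
  · intro i hi
    rw [mem_range] at hi
    exact tt_lt_one hm (by omega)
  · calc ∑ i ∈ range (m + 1), (1 - tt m (2 * i)) ≤ ∑ i ∈ range (m + 1), 1 / (2400 * (m : ℝ)) := by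
          refine sum_le_sum (fun i hi => ?_)
          rw [mem_range] at hi
          exact (tt_bounds hm (by omega)).2
      _ = (m + 1) / (2400 * m) := by
          rw [sum_const, card_range, nsmul_eq_mul]; push_cast; ring
      _ ≤ 1 / 1200 := by
          rw [div_le_div_iff₀ (by positivity) (by norm_num)]
          linarith

/-- tail estimate -/
lemma tail_bound (a : ℕ → ℝ) (ha : ∀ k, a k = 1 ∨ a k = -1) {x : ℝ} (hx0 : 0 < x) (hx1 : x < 1)
    (n : ℕ) : |ev (PowerSeries.mk a) x - ∑ j ∈ range (n + 1), a j * x ^ j|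
      ≤ x ^ (n + 1) / (1 - x) := by
  have habs : ∀ k, |a k| = 1 := by
    intro k; rcases ha k with h | h <;> rw [h] <;> simp
  have hS : Summable (fun j => a j * x ^ j) := by
    have := Sm_of_bdd (f := PowerSeries.mk a) (x := x) (K := 1) (by rwa [abs_of_pos hx0])
      (fun j => by rw [PowerSeries.coeff_mk, habs])
    simpa [Sm] using this.of_norm
  have h1 : ev (PowerSeries.mk a) x = ∑' j, a j * x ^ j := by
    simp [ev]
  rw [h1, ← hS.sum_add_tsum_nat_add (n + 1), add_sub_cancel_left]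
  have hg : HasSum (fun j : ℕ => x ^ (n + 1) * x ^ j) (x ^ (n + 1) * (1 - x)⁻¹) :=
    (hasSum_geometric_of_lt_one hx0.le hx1).mul_left _
  have h2 := tsum_of_norm_bounded (f := fun j => a (j + (n + 1)) * x ^ (j + (n + 1))) hg (by
    intro j
    rw [norm_mul, Real.norm_eq_abs, habs, one_mul, norm_pow, Real.norm_eq_abs, abs_of_pos hx0,
      pow_add, mul_comm])
  rw [Real.norm_eq_abs] at h2
  rw [div_eq_mul_inv]
  exact h2

lemma exp14 : (921600 : ℝ) < Real.exp 14 := by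
  have h : Real.exp 14 = Real.exp 1 ^ 14 := by
    rw [← Real.exp_nat_mul]; norm_num
  rw [h]
  have h1 := Real.exp_one_gt_d9
  calc (921600 : ℝ) < 2.7182818283 ^ 14 := by norm_num
    _ < Real.exp 1 ^ 14 := by gcongr

lemma tail_small {m n j : ℕ} (hm : 1 ≤ m) (hj : j ≤ m) (hn : 67200 * m ^ 2 ≤ n) :
    (tt m (2 * j)) ^ (n + 1) / (1 - tt m (2 * j)) < 1 / 2 * (1 / 48) ^ m := by
  have hm' : (1 : ℝ) ≤ m := by exact_mod_cast hm
  have hj' : 2 * j ≤ 2 * m := by omega
  have h0 := tt_pos hm hj'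
  have h1 := tt_lt_one hm hj'
  have h2 := (tt_bounds hm hj').1
  set x := tt m (2 * j) with hx
  have hn' : (67200 : ℝ) * m ^ 2 ≤ n := by exact_mod_cast hn
  have h3 : x ^ (n + 1) ≤ Real.exp (-(14 * m)) := by
    have h4 : x ≤ Real.exp (-(1 / (4800 * m))) := by
      have := Real.add_one_le_exp (-(1 / (4800 * (m : ℝ))))
      linarith
    calc x ^ (n + 1) ≤ (Real.exp (-(1 / (4800 * m)))) ^ (n + 1) := by gcongr
      _ = Real.exp (((n + 1 : ℕ) : ℝ) * (-(1 / (4800 * m)))) := by rw [← Real.exp_nat_mul]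
      _ ≤ Real.exp (-(14 * m)) := by
          apply Real.exp_le_exp.2
          push_cast
          rw [mul_neg, neg_le_neg_iff, mul_one_div, le_div_iff₀ (by positivity)]
          nlinarith
  have h5 : x ^ (n + 1) / (1 - x) ≤ Real.exp (-(14 * m)) / (1 / (4800 * m)) := by
    gcongr
  refine lt_of_le_of_lt h5 ?_
  have h6 : Real.exp (-(14 * m)) = (Real.exp 14 ^ m)⁻¹ := by
    rw [← Real.exp_nat_mul, ← Real.exp_neg]; congr 1; ring
  have h7 : (9600 : ℝ) * m * 48 ^ m < Real.exp 14 ^ m := by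
    have h8 : (9600 : ℝ) ≤ 9600 ^ m := le_self_pow₀ (by norm_num) (by omega)
    have h9 : (m : ℝ) ≤ 2 ^ m := by
      exact_mod_cast (Nat.lt_two_pow_self).le
    calc (9600 : ℝ) * m * 48 ^ m ≤ 9600 ^ m * 2 ^ m * 48 ^ m := by gcongr
      _ = 921600 ^ m := by rw [← mul_pow, ← mul_pow]; norm_num
      _ < Real.exp 14 ^ m := by
          apply pow_lt_pow_left₀ exp14 (by norm_num) (by omega)
  rw [h6, one_div_pow, div_div_eq_mul_div, div_one]
  have h10 : (0 : ℝ) < Real.exp 14 ^ m := by positivity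
  rw [inv_mul_eq_div, div_lt_iff₀ h10]
  rw [one_div, one_div, mul_assoc, ← div_eq_inv_mul, ← div_eq_inv_mul, lt_div_iff₀ (by norm_num),
    lt_div_iff₀ (by positivity)]
  linarith

end Pool.Agent.Lib.MP_efea25_an
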