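import Pool.Agent.Lib.MP_efea25_an.Norms

set_option autoImplicit false

namespace Pool.Agent.Lib.MP_efea25_an

open PowerSeries Finset

variable {ι : Type*}

/-- product of Blaschke factors -/
noncomputable def blProd (s : Finset ι) (x : ι → ℝ) : ℝ⟦X⟧ := ∏ i ∈ s, bl (x i)

lemma coeff_zero_bl (a : ℝ) : coeff 0 (bl a) = a := by
  simp [bl, geo]

lemma coeff_zero_blProd (s : Finset ι) (x : ι → ℝ) : coeff 0 (blProd s x) = ∏ i ∈ s, x i := by
  classical
  induction s using Finset.induction_on with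
  | empty => simp [blProd]
  | insert a s ha ih =>
    rw [blProd, prod_insert ha, prod_insert ha, ← ih, blProd]
    rw [coeff_zero_mul_eq, coeff_zero_bl]
where
  coeff_zero_mul_eq {f g : ℝ⟦X⟧} : coeff 0 (f * g) = coeff 0 f * coeff 0 g := by
    simp [coeff_mul]

lemma L1_geo_diff {a : ℝ} (ha0 : 0 ≤ a) (ha1 : a < 1) : L1 ((1 - X) * geo a) 2 := by
  intro J
  have h : ∀ J : ℕ, ∑ j ∈ range (J + 1), |coeff j ((1 - X) * geo a)| = 2 - a ^ J := by
    intro J
    induction J with
    | zero => simp [geo]; norm_num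
    | succ J ih =>
      rw [sum_range_succ, ih, sub_mul, one_mul, map_sub, coeff_succ_X_mul]
      simp only [geo, coeff_mk]
      have h1 : a ^ (J + 1) ≤ a ^ J := pow_le_pow_of_le_one ha0 ha1.le (Nat.le_succ J)
      rw [abs_of_nonpos (by linarith)]
      ring
  cases J with
  | zero => simp
  | succ J =>
    rw [h J]
    have : 0 ≤ a ^ J := by positivity
    linarith

lemma L1_X_pow (k : ℕ) : L1 (X ^ k : ℝ⟦X⟧) 1 := by
  intro J
  simp only [coeff_X_pow]
  calc ∑ j ∈ range J, |if j = k then (1 : ℝ) else 0| = ∑ j ∈ range J, if j = k then (1 : ℝ) else 0 := by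
        refine sum_congr rfl (fun j _ => ?_)
        split_ifs <;> simp
    _ ≤ 1 := by
        rw [sum_ite_eq']
        split_ifs <;> norm_num

lemma L1_X : L1 (X : ℝ⟦X⟧) 1 := by simpa using L1_X_pow 1

lemma L1_C_mul_X_pow (c : ℝ) (k : ℕ) : L1 (C c * X ^ k : ℝ⟦X⟧) |c| := by
  simpa using (L1_X_pow k).C_mul c

lemma L2_blProd_mul (s : Finset ι) (x : ι → ℝ) (hx : ∀ i ∈ s, |x i| ≤ 1) {f : ℝ⟦X⟧} {K : ℝ}
    (hf : L2 f K) : L2 (blProd s x * f) K := by
  classical
  induction s using Finset.induction_on with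
  | empty => simpa [blProd] using hf
  | insert a s ha ih =>
    rw [blProd, prod_insert ha, mul_assoc]
    exact (ih (fun i hi => hx i (mem_insert_of_mem hi))).bl_mul (hx a (mem_insert_self _ _))

lemma L2_blProd (s : Finset ι) (x : ι → ℝ) (hx : ∀ i ∈ s, |x i| ≤ 1) : L2 (blProd s x) 1 := by
  simpa using L2_blProd_mul s x hx L2_one

lemma derivative_geo (a : ℝ) : derivative ℝ (geo a) = C a * (geo a * geo a) := by
  have h := geo_mul a
  have h1 : derivative ℝ ((1 - C a * X) * geo a) = 0 := by rw [h]; simp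
  rw [Derivation.leibniz] at h1
  have h2 : derivative ℝ (1 - C a * X : ℝ⟦X⟧) = - C a := by
    rw [map_sub, Derivation.leibniz]
    simp
  rw [h2] at h1
  simp only [smul_eq_mul] at h1
  linear_combination (-(derivative ℝ (geo a))) * h + (geo a) * h1

lemma derivative_bl (a : ℝ) : derivative ℝ (bl a) = C (-(1 - a ^ 2)) * (geo a * geo a) := by
  have h := geo_mul a
  rw [bl, Derivation.leibniz, derivative_geo]
  have h2 : derivative ℝ (C a - X : ℝ⟦X⟧) = - 1 := by
    rw [map_sub]; simp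
  rw [h2]
  simp only [smul_eq_mul, map_neg, map_sub, map_one, map_pow]
  linear_combination (geo a) * h

lemma bl_sub (a : ℝ) : bl a - C a = C (-(1 - a ^ 2)) * (X * geo a) := by
  have h := geo_mul a
  rw [bl]
  simp only [map_neg, map_sub, map_one, map_pow]
  linear_combination (C a) * h

/-- first estimate: derivative of the Blaschke product -/
lemma L2_deriv (s : Finset ι) (x : ι → ℝ) (hx0 : ∀ i ∈ s, 0 ≤ x i) (hx1 : ∀ i ∈ s, x i < 1) :
    L2 ((1 - X) ^ 2 * derivative ℝ (blProd s x)) (8 * ∑ i ∈ s, (1 - x i)) := by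
  classical
  induction s using Finset.induction_on with
  | empty => simp [blProd, L2]
  | insert a s ha ih =>
    have ih' := ih (fun i hi => hx0 i (mem_insert_of_mem hi)) (fun i hi => hx1 i (mem_insert_of_mem hi))
    have ha0 := hx0 a (mem_insert_self _ _)
    have ha1 := hx1 a (mem_insert_self _ _)
    have hP : L2 (blProd s x) 1 := L2_blProd s x (fun i hi => by
      rw [abs_of_nonneg (hx0 i (mem_insert_of_mem hi))]
      exact (hx1 i (mem_insert_of_mem hi)).le)
    have e : (1 - X) ^ 2 * derivative ℝ (blProd (insert a s) x)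
        = bl (x a) * ((1 - X) ^ 2 * derivative ℝ (blProd s x))
          + C (-(1 - x a ^ 2)) * (((1 - X) * geo (x a)) * (((1 - X) * geo (x a)) * blProd s x)) := by
      have : blProd (insert a s) x = bl (x a) * blProd s x := by
        rw [blProd, prod_insert ha]; rfl
      rw [this, Derivation.leibniz, derivative_bl]
      simp only [smul_eq_mul]
      ring
    rw [e, sum_insert ha, mul_add, add_comm]
    refine L2.mono ((((L1_geo_diff ha0 ha1).mul_L2 ((L1_geo_diff ha0 ha1).mul_L2 hP)).C_mul _).add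
      (ih'.bl_mul (by rw [abs_of_nonneg ha0]; exact ha1.le))) ?_
    have h1 : |-(1 - x a ^ 2)| = 1 - x a ^ 2 := by
      rw [abs_neg, abs_of_nonneg]
      nlinarith
    rw [h1]
    nlinarith

/-- second estimate -/
lemma L2_diff (s : Finset ι) (x : ι → ℝ) (hx0 : ∀ i ∈ s, 0 ≤ x i) (hx1 : ∀ i ∈ s, x i < 1) :
    L2 ((1 - X) * (blProd s x - C (∏ i ∈ s, x i))) (4 * ∑ i ∈ s, (1 - x i)) := by
  classical
  induction s using Finset.induction_on with
  | empty => simp [blProd, L2]
  | insert a s ha ih =>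
    have ih' := ih (fun i hi => hx0 i (mem_insert_of_mem hi)) (fun i hi => hx1 i (mem_insert_of_mem hi))
    have ha0 := hx0 a (mem_insert_self _ _)
    have ha1 := hx1 a (mem_insert_self _ _)
    have hP : L2 (blProd s x) 1 := L2_blProd s x (fun i hi => by
      rw [abs_of_nonneg (hx0 i (mem_insert_of_mem hi))]
      exact (hx1 i (mem_insert_of_mem hi)).le)
    have e : (1 - X) * (blProd (insert a s) x - C (∏ i ∈ insert a s, x i))
        = C (-(1 - x a ^ 2)) * (X * (((1 - X) * geo (x a)) * blProd s x))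
          + C (x a) * ((1 - X) * (blProd s x - C (∏ i ∈ s, x i))) := by
      have h1 : blProd (insert a s) x = bl (x a) * blProd s x := by
        rw [blProd, prod_insert ha]; rfl
      rw [h1, prod_insert ha, map_mul]
      linear_combination ((1 - X) * blProd s x) * bl_sub (x a)
    rw [e, sum_insert ha, mul_add]
    refine L2.mono (((L1_X.mul_L2 ((L1_geo_diff ha0 ha1).mul_L2 hP)).C_mul _).add
      (ih'.C_mul _)) ?_
    have h1 : |-(1 - x a ^ 2)| = 1 - x a ^ 2 := by
      rw [abs_neg, abs_of_nonneg]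
      nlinarith
    rw [h1, abs_of_nonneg ha0]
    have h2 : x a * (4 * ∑ i ∈ s, (1 - x i)) ≤ 4 * ∑ i ∈ s, (1 - x i) := by
      have := ih'.1
      nlinarith
    nlinarith

lemma L1_F (s : Finset ι) (x : ι → ℝ) (hx0 : ∀ i ∈ s, 0 ≤ x i) (hx1 : ∀ i ∈ s, x i < 1) :
    L1 ((1 - X) ^ 2 * (blProd s x - C (∏ i ∈ s, x i))) (32 * ∑ i ∈ s, (1 - x i)) := by
  have h0 : coeff 0 ((1 - X) ^ 2 * (blProd s x - C (∏ i ∈ s, x i))) = 0 := by
    have := coeff_zero_blProd s x
    simp only [coeff_zero_eq_constantCoeff_apply, map_mul, map_sub] at this ⊢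
    simp [this]
  have hd : L2 (derivative ℝ ((1 - X) ^ 2 * (blProd s x - C (∏ i ∈ s, x i))))
      (16 * ∑ i ∈ s, (1 - x i)) := by
    have e : derivative ℝ ((1 - X) ^ 2 * (blProd s x - C (∏ i ∈ s, x i)))
        = (1 - X) ^ 2 * derivative ℝ (blProd s x)
          + C (-2) * ((1 - X) * (blProd s x - C (∏ i ∈ s, x i))) := by
      rw [sq, Derivation.leibniz, Derivation.leibniz]
      have h1 : derivative ℝ (1 - X : ℝ⟦X⟧) = - 1 := by
        rw [map_sub]; simp
      have h2 : derivative ℝ (blProd s x - C (∏ i ∈ s, x i)) = derivative ℝ (blProd s x) := by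
        rw [map_sub, derivative_C, sub_zero]
      rw [h1, h2]
      have h3 : (C (-2) : ℝ⟦X⟧) = -2 := by
        rw [map_neg]; congr 1
      rw [h3]
      simp only [smul_eq_mul]
      ring
    rw [e]
    refine L2.mono ((L2_deriv s x hx0 hx1).add ((L2_diff s x hx0 hx1).C_mul _)) ?_
    norm_num
    linarith
  refine (L1_of_derivative h0 hd).mono ?_
  linarith

lemma one_sub_sum_le_prod (s : Finset ι) (x : ι → ℝ) (hx0 : ∀ i ∈ s, 0 ≤ x i)
    (hx1 : ∀ i ∈ s, x i < 1) : 1 - ∑ i ∈ s, (1 - x i) ≤ ∏ i ∈ s, x i := by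
  classical
  induction s using Finset.induction_on with
  | empty => simp
  | insert a s ha ih =>
    have ih' := ih (fun i hi => hx0 i (mem_insert_of_mem hi)) (fun i hi => hx1 i (mem_insert_of_mem hi))
    have ha0 := hx0 a (mem_insert_self _ _)
    have ha1 := hx1 a (mem_insert_self _ _)
    rw [sum_insert ha, prod_insert ha]
    have h1 : ∏ i ∈ s, x i ≤ 1 := prod_le_one (fun i hi => hx0 i (mem_insert_of_mem hi))
      (fun i hi => (hx1 i (mem_insert_of_mem hi)).le)
    nlinarith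

/-- the polynomial `1 - (10/9) X + (1/9) X^10` -/
noncomputable def cpoly : ℝ⟦X⟧ := 1 + (C (-(10 / 9)) * X ^ 1 + C (1 / 9) * X ^ 10)

/-- `cpoly / (1 - X)^2` -/
noncomputable def apoly : ℝ⟦X⟧ := ∑ k ∈ range 9, C (((9 : ℝ) - k) / 9) * X ^ k

lemma cpoly_eq : cpoly = apoly * (1 - X) ^ 2 := by
  have h9 : (C (1 / 9) : ℝ⟦X⟧) * 9 = 1 := by
    have : (9 : ℝ⟦X⟧) = C 9 := (map_ofNat C 9).symm
    rw [this, ← map_mul]; norm_num
  have hk : ∀ k : ℕ, (C (((9 : ℝ) - k) / 9) : ℝ⟦X⟧) = C (1 / 9) * (9 - (k : ℝ⟦X⟧)) := by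
    intro k
    have : ((9 : ℝ⟦X⟧) - (k : ℝ⟦X⟧)) = C ((9 : ℝ) - k) := by
      rw [map_sub, map_natCast, map_ofNat]
    rw [this, ← map_mul]; congr 1; ring
  have h10 : (C (-(10 / 9)) : ℝ⟦X⟧) = - (C (1 / 9) * 10) := by
    have : (10 : ℝ⟦X⟧) = C 10 := (map_ofNat C 10).symm
    rw [this, ← map_mul, ← map_neg]; congr 1; norm_num
  unfold cpoly apoly
  simp only [hk, h10, sum_range_succ, sum_range_zero]
  push_cast
  linear_combination (-1) * h9

lemma L1_apoly : L1 apoly 5 := by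
  have h : L1 apoly (∑ k ∈ range 9, |((9 : ℝ) - k) / 9|) := by
    rw [apoly]
    have : ∀ t : Finset ℕ, L1 (∑ k ∈ t, C (((9 : ℝ) - k) / 9) * X ^ k)
        (∑ k ∈ t, |((9 : ℝ) - k) / 9|) := by
      classical
      intro t
      induction t using Finset.induction_on with
      | empty => intro J; simp
      | insert a s ha ih =>
        rw [sum_insert ha, sum_insert ha]
        exact (L1_C_mul_X_pow _ _).add ih
    exact this _
  refine h.mono ?_
  simp only [sum_range_succ, sum_range_zero]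
  norm_num

/-- the noise shaping filter -/
noncomputable def filt (s : Finset ι) (x : ι → ℝ) : ℝ⟦X⟧ :=
  C (∏ i ∈ s, x i)⁻¹ * (cpoly * blProd s x)

lemma filt_bound (s : Finset ι) (x : ι → ℝ) (hx0 : ∀ i ∈ s, 0 < x i) (hx1 : ∀ i ∈ s, x i < 1)
    (hσ : ∑ i ∈ s, (1 - x i) ≤ 1 / 1200) :
    coeff 0 (filt s x) = 1 ∧ L1 (filt s x - 1) (3 / 2) := by
  have hβ : 1 / 2 ≤ ∏ i ∈ s, x i := by
    have := one_sub_sum_le_prod s x (fun i hi => (hx0 i hi).le) hx1
    linarith
  have hβ0 : ∏ i ∈ s, x i ≠ 0 := by positivity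
  constructor
  · have := coeff_zero_blProd s x
    simp only [coeff_zero_eq_constantCoeff_apply] at this ⊢
    simp only [filt, cpoly, map_mul, this, map_add, map_one, map_pow, constantCoeff_X]
    simp [hβ0]
  · have e : filt s x - 1 = C (∏ i ∈ s, x i)⁻¹ * (apoly * ((1 - X) ^ 2 * (blProd s x
        - C (∏ i ∈ s, x i)))) + (C (-(10 / 9)) * X ^ 1 + C (1 / 9) * X ^ 10) := by
      have h1 : (C (∏ i ∈ s, x i)⁻¹ : ℝ⟦X⟧) * C (∏ i ∈ s, x i) = 1 := by
        rw [← map_mul, inv_mul_cancel₀ hβ0, map_one]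
      have h2 : (C (-(10 / 9)) * X ^ 1 + C (1 / 9) * X ^ 10 : ℝ⟦X⟧) = cpoly - 1 := by
        rw [cpoly]; ring
      rw [h2, filt, cpoly_eq]
      linear_combination (apoly * (1 - X) ^ 2) * h1
    rw [e]
    refine L1.mono (((L1_apoly.mul (L1_F s x (fun i hi => (hx0 i hi).le) hx1)).C_mul _).add
      ((L1_C_mul_X_pow _ _).add (L1_C_mul_X_pow _ _))) ?_
    have h3 : |(∏ i ∈ s, x i)⁻¹| ≤ 2 := by
      rw [abs_inv, abs_of_nonneg (by linarith)]
      rw [inv_le_comm₀ (by linarith) (by norm_num)]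
      linarith
    have h4 : 0 ≤ ∑ i ∈ s, (1 - x i) := sum_nonneg (fun i hi => by linarith [hx1 i hi])
    have h5 : |(∏ i ∈ s, x i)⁻¹| * (5 * (32 * ∑ i ∈ s, (1 - x i)))
        ≤ 2 * (5 * (32 * ∑ i ∈ s, (1 - x i))) := by gcongr
    have h6 : |(-(10 / 9) : ℝ)| = 10 / 9 := by rw [abs_neg]; norm_num
    have h7 : |(1 / 9 : ℝ)| = 1 / 9 := by norm_num
    rw [h6, h7]
    linarith

end Pool.Agent.Lib.MP_efea25_an
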