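import Mathlib

set_option autoImplicit false

namespace Pool.Agent.Lib.MP_efea25_an

open PowerSeries Finset

/-- All finite partial sums of the absolute values of the coefficients are at most `K`. -/
def L1 (f : ℝ⟦X⟧) (K : ℝ) : Prop := ∀ J : ℕ, ∑ j ∈ range J, |coeff j f| ≤ K

/-- All finite partial sums of the squares of the coefficients are at most `K ^ 2`. -/
def L2 (f : ℝ⟦X⟧) (K : ℝ) : Prop := 0 ≤ K ∧ ∀ J : ℕ, ∑ j ∈ range J, (coeff j f) ^ 2 ≤ K ^ 2

/-- Geometric series `1 / (1 - a X)`. -/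
noncomputable def geo (a : ℝ) : ℝ⟦X⟧ := PowerSeries.mk (fun j => a ^ j)

/-- Blaschke factor `(a - X) / (1 - a X)`. -/
noncomputable def bl (a : ℝ) : ℝ⟦X⟧ := (C a - X) * geo a

lemma geo_mul (a : ℝ) : (1 - C a * X) * geo a = 1 := by
  ext n
  rw [sub_mul, one_mul, mul_assoc, map_sub]
  cases n with
  | zero => simp [geo]
  | succ n =>
    rw [coeff_C_mul, coeff_succ_X_mul]
    simp [geo, coeff_mk, pow_succ, coeff_one]
    ring

lemma L1.nonneg {f : ℝ⟦X⟧} {K : ℝ} (h : L1 f K) : 0 ≤ K := by simpa using h 0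

lemma L1.mono {f : ℝ⟦X⟧} {K K' : ℝ} (h : L1 f K) (hK : K ≤ K') : L1 f K' :=
  fun J => (h J).trans hK

lemma L2.mono {f : ℝ⟦X⟧} {K K' : ℝ} (h : L2 f K) (hK : K ≤ K') : L2 f K' :=
  ⟨h.1.trans hK, fun J => (h.2 J).trans (by have := h.1; gcongr)⟩

lemma L1.add {f g : ℝ⟦X⟧} {K K' : ℝ} (hf : L1 f K) (hg : L1 g K') : L1 (f + g) (K + K') := by
  intro J
  calc ∑ j ∈ range J, |coeff j (f + g)| ≤ ∑ j ∈ range J, (|coeff j f| + |coeff j g|) := by
        gcongr with j _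
        rw [map_add]; exact abs_add_le _ _
    _ = _ := sum_add_distrib
    _ ≤ _ := add_le_add (hf J) (hg J)

lemma L1.C_mul {f : ℝ⟦X⟧} {K : ℝ} (hf : L1 f K) (c : ℝ) : L1 (C c * f) (|c| * K) := by
  intro J
  simp only [coeff_C_mul, abs_mul]
  rw [← mul_sum]
  exact mul_le_mul_of_nonneg_left (hf J) (abs_nonneg _)

lemma L2.C_mul {f : ℝ⟦X⟧} {K : ℝ} (hf : L2 f K) (c : ℝ) : L2 (C c * f) (|c| * K) := by
  refine ⟨mul_nonneg (abs_nonneg _) hf.1, fun J => ?_⟩
  simp only [coeff_C_mul, mul_pow, sq_abs]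
  rw [← mul_sum]
  exact mul_le_mul_of_nonneg_left (hf.2 J) (sq_nonneg _)

lemma L2.add {f g : ℝ⟦X⟧} {K K' : ℝ} (hf : L2 f K) (hg : L2 g K') : L2 (f + g) (K + K') := by
  refine ⟨add_nonneg hf.1 hg.1, fun J => ?_⟩
  have h1 : ∑ j ∈ range J, (coeff j (f + g)) ^ 2
      = ∑ j ∈ range J, (coeff j f) ^ 2 + 2 * ∑ j ∈ range J, coeff j f * coeff j g
        + ∑ j ∈ range J, (coeff j g) ^ 2 := by
    rw [mul_sum, ← sum_add_distrib, ← sum_add_distrib]
    refine sum_congr rfl (fun j _ => ?_)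
    rw [map_add]; ring
  have h2 : (∑ j ∈ range J, coeff j f * coeff j g) ^ 2
      ≤ (∑ j ∈ range J, (coeff j f) ^ 2) * ∑ j ∈ range J, (coeff j g) ^ 2 :=
    sum_mul_sq_le_sq_mul_sq _ _ _
  have hf' := hf.2 J
  have hg' := hg.2 J
  have h3 : (∑ j ∈ range J, coeff j f * coeff j g) ^ 2 ≤ (K * K') ^ 2 := by
    refine h2.trans ?_
    rw [mul_pow]
    have : 0 ≤ ∑ j ∈ range J, (coeff j g) ^ 2 := sum_nonneg (fun _ _ => sq_nonneg _)
    gcongr
  have h4 : ∑ j ∈ range J, coeff j f * coeff j g ≤ K * K' :=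
    le_of_sq_le_sq' h3 (mul_nonneg hf.1 hg.1)
  rw [h1]; nlinarith
where
  le_of_sq_le_sq' {a b : ℝ} (h : a ^ 2 ≤ b ^ 2) (hb : 0 ≤ b) : a ≤ b := by
    exact (abs_le_of_sq_le_sq' h hb).2

lemma L2.neg {f : ℝ⟦X⟧} {K : ℝ} (hf : L2 f K) : L2 (-f) K := by
  refine ⟨hf.1, fun J => ?_⟩
  simpa using hf.2 J

lemma L2.sub {f g : ℝ⟦X⟧} {K K' : ℝ} (hf : L2 f K) (hg : L2 g K') : L2 (f - g) (K + K') := by
  rw [sub_eq_add_neg]; exact hf.add hg.neg

lemma L2_one : L2 1 1 := by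
  refine ⟨zero_le_one, fun J => ?_⟩
  cases J with
  | zero => simp
  | succ J =>
    rw [sum_range_succ']
    simp [coeff_one]

lemma L2.abs_coeff_le {f : ℝ⟦X⟧} {K : ℝ} (hf : L2 f K) (j : ℕ) : |coeff j f| ≤ K := by
  have h1 : (coeff j f) ^ 2 ≤ K ^ 2 :=
    (single_le_sum (f := fun j => (coeff j f) ^ 2) (fun i _ => sq_nonneg _)
      (mem_range.2 (Nat.lt_succ_self j))).trans (hf.2 (j + 1))
  exact abs_le_of_sq_le_sq h1 hf.1

/-- Multiplication by a Blaschke factor does not increase the partial `ℓ²` norms. -/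
lemma L2.bl_mul {f : ℝ⟦X⟧} {K : ℝ} (hf : L2 f K) {a : ℝ} (ha : |a| ≤ 1) : L2 (bl a * f) K := by
  refine ⟨hf.1, fun J => le_trans ?_ (hf.2 J)⟩
  set h : ℝ⟦X⟧ := geo a * f with hh
  have hf' : f = (1 - C a * X) * h := by rw [hh, ← mul_assoc, geo_mul, one_mul]
  have hb : bl a * f = (C a - X) * h := by rw [bl, hh, mul_assoc]
  have key : ∀ J : ℕ, ∑ j ∈ range (J + 1), (coeff j f) ^ 2
      - ∑ j ∈ range (J + 1), (coeff j (bl a * f)) ^ 2 = (1 - a ^ 2) * (coeff J h) ^ 2 := by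
    intro J
    induction J with
    | zero =>
      rw [hb]
      nth_rewrite 1 [hf']
      simp
      ring
    | succ J ih =>
      rw [sum_range_succ _ (J + 1), sum_range_succ _ (J + 1)]
      have e1 : coeff (J + 1) f = coeff (J + 1) h - a * coeff J h := by
        rw [hf', sub_mul, one_mul, mul_assoc, map_sub, coeff_C_mul, coeff_succ_X_mul]
      have e2 : coeff (J + 1) (bl a * f) = a * coeff (J + 1) h - coeff J h := by
        rw [hb, sub_mul, map_sub, coeff_C_mul, coeff_succ_X_mul]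
      rw [e1, e2]
      linear_combination ih
  cases J with
  | zero => simp
  | succ J =>
    have h1 := key J
    have h2 : 0 ≤ (1 - a ^ 2) * (coeff J h) ^ 2 := by
      have : a ^ 2 ≤ 1 := by rwa [sq_le_one_iff_abs_le_one]
      exact mul_nonneg (by linarith) (sq_nonneg _)
    linarith

/-- rearrangement of a triangular double sum -/
lemma sum_conv_range (J : ℕ) (F : ℕ → ℕ → ℝ) :
    ∑ j ∈ range J, ∑ p ∈ antidiagonal j, F p.1 p.2
      = ∑ i ∈ range J, ∑ k ∈ range (J - i), F i k := by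
  simp_rw [Nat.sum_antidiagonal_eq_sum_range_succ F]
  rw [sum_sigma', sum_sigma']
  refine sum_bij' (fun p _ => ⟨p.2, p.1 - p.2⟩) (fun p _ => ⟨p.1 + p.2, p.1⟩) ?_ ?_ ?_ ?_ ?_
  · rintro ⟨j, i⟩ h
    simp only [mem_sigma, mem_range] at h ⊢
    omega
  · rintro ⟨j, i⟩ h
    simp only [mem_sigma, mem_range] at h ⊢
    omega
  · rintro ⟨j, i⟩ h
    simp only [mem_sigma, mem_range] at h
    simp only [Sigma.mk.injEq, heq_eq_eq, and_true]
    omega
  · rintro ⟨j, i⟩ h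
    simp
  · rintro ⟨j, i⟩ h
    simp

lemma L1.mul {f g : ℝ⟦X⟧} {K K' : ℝ} (hf : L1 f K) (hg : L1 g K') : L1 (f * g) (K * K') := by
  intro J
  calc ∑ j ∈ range J, |coeff j (f * g)|
      ≤ ∑ j ∈ range J, ∑ p ∈ antidiagonal j, |coeff p.1 f| * |coeff p.2 g| := by
        gcongr with j _
        rw [coeff_mul]
        refine (abs_sum_le_sum_abs _ _).trans ?_
        simp [abs_mul]
    _ = ∑ i ∈ range J, ∑ k ∈ range (J - i), |coeff i f| * |coeff k g| :=
        sum_conv_range J (fun i k => |coeff i f| * |coeff k g|)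
    _ ≤ ∑ i ∈ range J, |coeff i f| * K' := by
        gcongr with i _
        rw [← mul_sum]
        exact mul_le_mul_of_nonneg_left (hg _) (abs_nonneg _)
    _ = (∑ i ∈ range J, |coeff i f|) * K' := by rw [sum_mul]
    _ ≤ K * K' := mul_le_mul_of_nonneg_right (hf J) hg.nonneg

lemma L1.mul_L2 {f g : ℝ⟦X⟧} {K K' : ℝ} (hf : L1 f K) (hg : L2 g K') : L2 (f * g) (K * K') := by
  refine ⟨mul_nonneg hf.nonneg hg.1, fun J => ?_⟩
  have hcs : ∀ j : ℕ, (coeff j (f * g)) ^ 2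
      ≤ K * ∑ p ∈ antidiagonal j, |coeff p.1 f| * (coeff p.2 g) ^ 2 := by
    intro j
    rw [coeff_mul]
    have h1 : (∑ p ∈ antidiagonal j, coeff p.1 f * coeff p.2 g) ^ 2
        ≤ (∑ p ∈ antidiagonal j, |coeff p.1 f|)
          * ∑ p ∈ antidiagonal j, |coeff p.1 f| * (coeff p.2 g) ^ 2 := by
      refine sum_sq_le_sum_mul_sum_of_sq_le_mul _ (fun _ _ => abs_nonneg _)
        (fun _ _ => mul_nonneg (abs_nonneg _) (sq_nonneg _)) (fun p _ => le_of_eq ?_)
      rw [mul_pow, ← mul_assoc, ← sq, sq_abs]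
    refine h1.trans (mul_le_mul_of_nonneg_right ?_ ?_)
    · rw [Nat.sum_antidiagonal_eq_sum_range_succ (fun i _ => |coeff i f|)]
      exact hf (j + 1)
    · exact sum_nonneg (fun _ _ => mul_nonneg (abs_nonneg _) (sq_nonneg _))
  calc ∑ j ∈ range J, (coeff j (f * g)) ^ 2
      ≤ ∑ j ∈ range J, K * ∑ p ∈ antidiagonal j, |coeff p.1 f| * (coeff p.2 g) ^ 2 := by
        gcongr with j _
        exact hcs j
    _ = K * ∑ j ∈ range J, ∑ p ∈ antidiagonal j, |coeff p.1 f| * (coeff p.2 g) ^ 2 := by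
        rw [mul_sum]
    _ = K * ∑ i ∈ range J, ∑ k ∈ range (J - i), |coeff i f| * (coeff k g) ^ 2 := by
        rw [sum_conv_range J (fun i k => |coeff i f| * (coeff k g) ^ 2)]
    _ ≤ K * ∑ i ∈ range J, |coeff i f| * K' ^ 2 := by
        have := hf.nonneg
        gcongr with i _
        rw [← mul_sum]
        exact mul_le_mul_of_nonneg_left (hg.2 _) (abs_nonneg _)
    _ = K * ((∑ i ∈ range J, |coeff i f|) * K' ^ 2) := by rw [sum_mul]
    _ ≤ K * (K * K' ^ 2) := by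
        have := hf.nonneg
        gcongr
        exact hf J
    _ = (K * K') ^ 2 := by ring

lemma sum_inv_sq_le (J : ℕ) : ∑ j ∈ range J, (1 : ℝ) / ((j : ℝ) + 1) ^ 2 ≤ 2 := by
  have h : ∀ J : ℕ, ∑ j ∈ range (J + 1), (1 : ℝ) / ((j : ℝ) + 1) ^ 2 ≤ 2 - 1 / ((J : ℝ) + 1) := by
    intro J
    induction J with
    | zero => norm_num
    | succ J ih =>
      rw [sum_range_succ]
      have h1 : (1 : ℝ) / (((J + 1 : ℕ) : ℝ) + 1) ^ 2
          ≤ 1 / ((J : ℝ) + 1) - 1 / (((J + 1 : ℕ) : ℝ) + 1) := by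
        push_cast
        rw [div_sub_div _ _ (by positivity) (by positivity), div_le_div_iff₀ (by positivity)
          (by positivity)]
        nlinarith [(Nat.cast_nonneg J : (0 : ℝ) ≤ J)]
      linarith
  cases J with
  | zero => simp
  | succ J =>
    refine (h J).trans ?_
    have : (0 : ℝ) ≤ 1 / ((J : ℝ) + 1) := by positivity
    linarith

/-- An `ℓ²` bound on the derivative gives an `ℓ¹` bound. -/
lemma L1_of_derivative {f : ℝ⟦X⟧} {K : ℝ} (h0 : coeff 0 f = 0)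
    (hd : L2 (derivative ℝ f) K) : L1 f (2 * K) := by
  intro J
  cases J with
  | zero => simpa using hd.1
  | succ J =>
    rw [sum_range_succ', h0, abs_zero, add_zero]
    have h1 : (∑ j ∈ range J, |coeff (j + 1) f|) ^ 2
        ≤ (∑ j ∈ range J, (coeff j (derivative ℝ f)) ^ 2)
          * ∑ j ∈ range J, (1 : ℝ) / ((j : ℝ) + 1) ^ 2 := by
      refine sum_sq_le_sum_mul_sum_of_sq_le_mul _ (fun _ _ => sq_nonneg _)
        (fun _ _ => by positivity) (fun j _ => le_of_eq ?_)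
      rw [sq_abs, coeff_derivative]
      field_simp
    have h2 : (∑ j ∈ range J, |coeff (j + 1) f|) ^ 2 ≤ (2 * K) ^ 2 := by
      refine h1.trans ?_
      have h3 : (∑ j ∈ range J, (coeff j (derivative ℝ f)) ^ 2)
          * ∑ j ∈ range J, (1 : ℝ) / ((j : ℝ) + 1) ^ 2 ≤ K ^ 2 * 2 := by
        exact mul_le_mul (hd.2 J) (sum_inv_sq_le J)
          (sum_nonneg (fun _ _ => by positivity)) (sq_nonneg _)
      nlinarith [sq_nonneg K]
    exact (abs_le_of_sq_le_sq' h2 (by have := hd.1; linarith)).2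

end Pool.Agent.Lib.MP_efea25_an
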