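import Pool.Agent.Lib.MP_efea25_an.Filter

set_option autoImplicit false

namespace Pool.Agent.Lib.MP_efea25_an

open PowerSeries Finset

/-- The state sequence of the greedy one-bit quantiser with filter `R` and input `g`. -/
noncomputable def vseq (R g : ℕ → ℝ) : ℕ → ℝ
  | k =>
    let w := g k + ∑ i : Fin k, R (k - i) * vseq R g i
    (if 0 ≤ w then 1 else -1) - w
termination_by k => k
decreasing_by exact i.2

/-- The internal variable of the quantiser. -/
noncomputable def wseq (R g : ℕ → ℝ) (k : ℕ) : ℝ := g k + ∑ i ∈ range k, R (k - i) * vseq R g i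

/-- The output bits of the quantiser. -/
noncomputable def aseq (R g : ℕ → ℝ) (k : ℕ) : ℝ := if 0 ≤ wseq R g k then 1 else -1

lemma vseq_eq (R g : ℕ → ℝ) (k : ℕ) : vseq R g k = aseq R g k - wseq R g k := by
  rw [vseq, aseq, wseq, ← Fin.sum_univ_eq_sum_range (fun i => R (k - i) * vseq R g i)]

lemma aseq_eq (R g : ℕ → ℝ) (k : ℕ) : aseq R g k = 1 ∨ aseq R g k = -1 := by
  rw [aseq]; split_ifs <;> simp

lemma quant_bound (R : ℝ⟦X⟧) (g : ℕ → ℝ) (hR0 : coeff 0 R = 1) (hR : L1 (R - 1) (3 / 2))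
    (hg : ∀ k, |g k| ≤ 1 / 2) (k : ℕ) : |vseq (fun j => coeff j R) g k| ≤ 1 := by
  induction k using Nat.strong_induction_on with
  | _ k ih =>
    set v := vseq (fun j => coeff j R) g with hv
    have hw : |wseq (fun j => coeff j R) g k| ≤ 2 := by
      rw [wseq]
      have h1 : |∑ i ∈ range k, coeff (k - i) R * vseq (fun j => coeff j R) g i|
          ≤ ∑ i ∈ range k, |coeff (k - i) R| := by
        refine (abs_sum_le_sum_abs _ _).trans (sum_le_sum (fun i hi => ?_))
        rw [abs_mul]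
        have := ih i (mem_range.1 hi)
        nlinarith [abs_nonneg (coeff (k - i) R)]
      have h2 : ∑ i ∈ range k, |coeff (k - i) R| = ∑ j ∈ range k, |coeff (j + 1) (R - 1)| := by
        rw [← sum_range_reflect]
        refine sum_congr rfl (fun j hj => ?_)
        rw [mem_range] at hj
        have : k - (k - 1 - j) = j + 1 := by omega
        rw [this, map_sub, coeff_one]
        simp
      have h3 : ∑ j ∈ range k, |coeff (j + 1) (R - 1)| ≤ 3 / 2 := by
        have := hR (k + 1)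
        rw [sum_range_succ'] at this
        have h0 : |coeff 0 (R - 1)| = 0 := by
          rw [map_sub, hR0, coeff_one]; simp
        linarith
      calc |g k + ∑ i ∈ range k, coeff (k - i) R * vseq (fun j => coeff j R) g i|
          ≤ |g k| + |∑ i ∈ range k, coeff (k - i) R * vseq (fun j => coeff j R) g i| :=
            abs_add_le _ _
        _ ≤ 1 / 2 + 3 / 2 := by
            refine add_le_add (hg k) (h1.trans ?_)
            rw [h2]; exact h3
        _ = 2 := by norm_num
    rw [hv, vseq_eq, aseq]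
    rw [abs_le] at hw ⊢
    split_ifs with h
    · constructor <;> linarith [hw.1, hw.2]
    · push Not at h
      constructor <;> linarith [hw.1, hw.2]

lemma quant_eq (R : ℝ⟦X⟧) (g : ℕ → ℝ) (hR0 : coeff 0 R = 1) :
    PowerSeries.mk (aseq (fun j => coeff j R) g) - PowerSeries.mk g
      = R * PowerSeries.mk (vseq (fun j => coeff j R) g) := by
  ext k
  rw [coeff_mul, Nat.sum_antidiagonal_eq_sum_range_succ
    (fun i j => coeff i R * coeff j (PowerSeries.mk (vseq (fun j => coeff j R) g)))]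
  rw [← sum_range_reflect, sum_range_succ]
  simp only [map_sub, coeff_mk]
  have h1 : ∑ x ∈ range k, coeff (k + 1 - 1 - x) R
      * vseq (fun j => coeff j R) g (k - (k + 1 - 1 - x))
      = ∑ i ∈ range k, coeff (k - i) R * vseq (fun j => coeff j R) g i := by
    refine sum_congr rfl (fun i hi => ?_)
    rw [mem_range] at hi
    have e1 : k + 1 - 1 - i = k - i := by omega
    have e2 : k - (k + 1 - 1 - i) = i := by omega
    rw [e2, e1]
  rw [h1]
  have e3 : k + 1 - 1 - k = 0 := by omega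
  rw [e3, hR0, Nat.sub_zero, one_mul, vseq_eq, wseq]
  ring

/-! ### Evaluation of power series -/

/-- absolute summability at `x` -/
def Sm (f : ℝ⟦X⟧) (x : ℝ) : Prop := Summable (fun j => ‖coeff j f * x ^ j‖)

/-- evaluation at `x` -/
noncomputable def ev (f : ℝ⟦X⟧) (x : ℝ) : ℝ := ∑' j, coeff j f * x ^ j

lemma coeff_mul_pow (f g : ℝ⟦X⟧) (x : ℝ) (j : ℕ) : coeff j (f * g) * x ^ j
    = ∑ p ∈ antidiagonal j, (coeff p.1 f * x ^ p.1) * (coeff p.2 g * x ^ p.2) := by
  rw [coeff_mul, sum_mul]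
  refine sum_congr rfl (fun p hp => ?_)
  rw [HasAntidiagonal.mem_antidiagonal] at hp
  rw [← hp, pow_add]; ring

lemma Sm.mul {f g : ℝ⟦X⟧} {x : ℝ} (hf : Sm f x) (hg : Sm g x) : Sm (f * g) x := by
  have := summable_norm_sum_mul_antidiagonal_of_summable_norm hf hg
  simpa only [Sm, coeff_mul_pow] using this

lemma ev_mul {f g : ℝ⟦X⟧} {x : ℝ} (hf : Sm f x) (hg : Sm g x) :
    ev (f * g) x = ev f x * ev g x := by
  have := tsum_mul_tsum_eq_tsum_sum_antidiagonal_of_summable_norm hf hg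
  simp only [ev, coeff_mul_pow]
  exact this.symm

lemma Sm_of_bdd {f : ℝ⟦X⟧} {x K : ℝ} (hx : |x| < 1) (h : ∀ j, |coeff j f| ≤ K) : Sm f x := by
  have h1 : Summable (fun j : ℕ => K * |x| ^ j) :=
    (summable_geometric_of_lt_one (abs_nonneg _) hx).mul_left K
  refine Summable.of_nonneg_of_le (fun _ => norm_nonneg _) (fun j => ?_) h1
  rw [norm_mul, norm_pow, Real.norm_eq_abs, Real.norm_eq_abs]
  gcongr
  exact h j

lemma Sm_C_sub_X (a x : ℝ) : Sm (C a - X) x := by
  refine summable_of_ne_finset_zero (s := range 2) (fun j hj => ?_)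
  rw [mem_range] at hj
  have h1 : j ≠ 0 := by omega
  have h2 : j ≠ 1 := by omega
  simp [coeff_C, coeff_X, h1, h2]

lemma ev_C_sub_X (a x : ℝ) : ev (C a - X) x = a - x := by
  rw [ev, tsum_eq_sum (s := range 2)]
  · simp [sum_range_succ, coeff_C, coeff_X]
    ring
  · intro j hj
    rw [mem_range] at hj
    have h1 : j ≠ 0 := by omega
    have h2 : j ≠ 1 := by omega
    simp [coeff_C, coeff_X, h1, h2]

lemma Sm_geo {a x : ℝ} (ha : |a| ≤ 1) (hx : |x| < 1) : Sm (geo a) x := by
  refine Sm_of_bdd hx (K := 1) (fun j => ?_)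
  rw [geo, coeff_mk, abs_pow]
  exact pow_le_one₀ (abs_nonneg _) ha

lemma ev_geo {a x : ℝ} (ha : |a| ≤ 1) (hx : |x| < 1) : ev (geo a) x = (1 - a * x)⁻¹ := by
  simp only [ev, geo, coeff_mk, ← mul_pow]
  rw [tsum_geometric_of_abs_lt_one]
  rw [abs_mul]
  nlinarith [abs_nonneg a, abs_nonneg x]

lemma Sm_bl {a x : ℝ} (ha : |a| ≤ 1) (hx : |x| < 1) : Sm (bl a) x :=
  (Sm_C_sub_X a x).mul (Sm_geo ha hx)

lemma ev_bl {a x : ℝ} (ha : |a| ≤ 1) (hx : |x| < 1) : ev (bl a) x = (a - x) / (1 - a * x) := by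
  rw [bl, ev_mul (Sm_C_sub_X a x) (Sm_geo ha hx), ev_C_sub_X, ev_geo ha hx, div_eq_mul_inv]

lemma Sm_one (x : ℝ) : Sm 1 x := by
  refine summable_of_ne_finset_zero (s := range 1) (fun j hj => ?_)
  rw [mem_range] at hj
  have h1 : j ≠ 0 := by omega
  simp [coeff_one, h1]

lemma ev_one (x : ℝ) : ev 1 x = 1 := by
  rw [ev, tsum_eq_sum (s := range 1)]
  · simp
  · intro j hj
    rw [mem_range] at hj
    have h1 : j ≠ 0 := by omega
    simp [coeff_one, h1]

lemma Sm_C_mul {f : ℝ⟦X⟧} {x : ℝ} (hf : Sm f x) (c : ℝ) : Sm (C c * f) x := by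
  have : Summable (fun j => ‖c‖ * ‖coeff j f * x ^ j‖) := Summable.mul_left _ hf
  refine this.congr (fun j => ?_)
  rw [coeff_C_mul, mul_assoc, norm_mul c]

lemma ev_C_mul (f : ℝ⟦X⟧) (x : ℝ) (c : ℝ) : ev (C c * f) x = c * ev f x := by
  simp only [ev, coeff_C_mul, mul_assoc]
  rw [tsum_mul_left]

variable {ι : Type*}

lemma blProd_ev (s : Finset ι) (y : ι → ℝ) (hy : ∀ i ∈ s, |y i| ≤ 1) {x : ℝ} (hx : |x| < 1) :
    Sm (blProd s y) x ∧ ev (blProd s y) x = ∏ i ∈ s, (y i - x) / (1 - y i * x) := by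
  classical
  induction s using Finset.induction_on with
  | empty => simp [blProd, Sm_one, ev_one]
  | insert a s ha ih =>
    obtain ⟨h1, h2⟩ := ih (fun i hi => hy i (mem_insert_of_mem hi))
    have ha1 := hy a (mem_insert_self _ _)
    have e : blProd (insert a s) y = bl (y a) * blProd s y := by
      rw [blProd, prod_insert ha]; rfl
    rw [e, prod_insert ha, ← h2, ← ev_bl ha1 hx]
    exact ⟨(Sm_bl ha1 hx).mul h1, ev_mul (Sm_bl ha1 hx) h1⟩

lemma Sm_cpoly (x : ℝ) : Sm cpoly x := by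
  refine summable_of_ne_finset_zero (s := range 11) (fun j hj => ?_)
  rw [mem_range] at hj
  have h1 : j ≠ 0 := by omega
  have h2 : j ≠ 1 := by omega
  have h3 : j ≠ 10 := by omega
  simp [cpoly, coeff_one, coeff_X, coeff_X_pow, h1, h2, h3]

/-- The main evaluation fact: the quantised series agrees with the input at the zeros of the
filter. -/
lemma ev_quant (s : Finset ι) (x : ι → ℝ) (hx0 : ∀ i ∈ s, 0 < x i) (hx1 : ∀ i ∈ s, x i < 1)
    (hσ : ∑ i ∈ s, (1 - x i) ≤ 1 / 1200) (g : ℕ → ℝ) (hg : ∀ k, |g k| ≤ 1 / 2)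
    {i : ι} (hi : i ∈ s) :
    ev (PowerSeries.mk (aseq (fun j => coeff j (filt s x)) g)) (x i)
      = ev (PowerSeries.mk g) (x i) := by
  classical
  obtain ⟨hR0, hR⟩ := filt_bound s x hx0 hx1 hσ
  set a := aseq (fun j => coeff j (filt s x)) g with ha
  set v := vseq (fun j => coeff j (filt s x)) g with hv
  have hxi : |x i| < 1 := by rw [abs_of_pos (hx0 i hi)]; exact hx1 i hi
  have hxi' : |x i| ≤ 1 := hxi.le
  have hSa : Sm (PowerSeries.mk a) (x i) := Sm_of_bdd hxi (K := 1) (fun j => by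
    rw [coeff_mk]
    rcases aseq_eq (fun j => coeff j (filt s x)) g j with h | h
    · rw [ha, h]; simp
    · rw [ha, h]; simp)
  have hSg : Sm (PowerSeries.mk g) (x i) := Sm_of_bdd hxi (K := 1 / 2) (fun j => by
    rw [coeff_mk]; exact hg j)
  have hSv : Sm (PowerSeries.mk v) (x i) := Sm_of_bdd hxi (K := 1) (fun j => by
    rw [coeff_mk]; exact quant_bound _ g hR0 hR hg j)
  have hfac : filt s x = (C (x i) - X) * (C (∏ i ∈ s, x i)⁻¹ * (cpoly * (geo (x i)
      * blProd (s.erase i) x))) := by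
    have h1 : blProd s x = bl (x i) * blProd (s.erase i) x := by
      rw [blProd, blProd, mul_prod_erase s (fun i => bl (x i)) hi]
    rw [filt, h1, bl]
    ring
  have hfac0 : ev (filt s x * PowerSeries.mk v) (x i) = 0 := by
    have hE := (blProd_ev (s.erase i) x (fun k hk => by
      have hk' := mem_of_mem_erase hk
      rw [abs_of_pos (hx0 k hk')]; exact (hx1 k hk').le) hxi).1
    rw [hfac, mul_assoc, ev_mul (Sm_C_sub_X _ _), ev_C_sub_X, sub_self, zero_mul]
    exact (Sm_C_mul ((Sm_cpoly _).mul ((Sm_geo hxi' hxi).mul hE)) _).mul hSv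
  have hq := quant_eq (filt s x) g hR0
  rw [← hq] at hfac0
  have hsub : ev (PowerSeries.mk a - PowerSeries.mk g) (x i)
      = ev (PowerSeries.mk a) (x i) - ev (PowerSeries.mk g) (x i) := by
    simp only [ev, map_sub, sub_mul]
    exact (hSa.of_norm).tsum_sub (hSg.of_norm)
  rw [hsub] at hfac0
  linarith

end Pool.Agent.Lib.MP_efea25_an
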